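import Pool.Agent.Helper10K1.BC.Cells

/-!
# The conjecture of Davis and Okun for all the covers: barycentric subdivisions

Let `P` be a finite poset, graded by the ranks `0, …, n - 1`, which is Gorenstein* over the field with two elements,
for example the poset of the nonempty cells of any regular cell decomposition (for example of any triangulation) of a
sphere or mod `2` homology sphere of dimension `n - 1`. The right-angled Coxeter group `W` of its comparability graph
acts on its Davis complex `Σ`, a contractible `n`-manifold if the order complex of `P` (the barycentric subdivision) is
a combinatorial sphere. The kernel `Γ` of `W → (ℤ/2)^P` is torsion free of finite index, `M = Σ / Γ` is a closed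
aspherical `n`-manifold, and the manifolds `Σ / K`, `K ≤ Γ`, are all the connected covers of `M`; if `K` has infinite
index they are noncompact, and `K` need not be finitely generated.

We show that `b_k(K) = 0` for **every** subgroup `K` of `Γ` and all `k > n / 2` with `k ≥ n - 2`. For `n ≤ 6` these are
all the degrees `k > n / 2`: for `n ≤ 6` the conjecture of Davis and Okun holds for all the covers of the closed
aspherical manifolds `M` of all barycentric subdivisions.

The second part is about arbitrary regular cell complexes `X` which are embedded in the sphere of dimension `2 d`: if
`dim X ≤ d + 1`, or if `dim X ≤ d + 2` and every cell of dimension `d + 1` lies in exactly two cells of dimension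
`d + 2`, then `b_k(K) = 0` for all `k > d` and every subgroup `K` of `Γ`. If the barycentric subdivision of `X` is
piecewise linearly embedded in the sphere of dimension `2 d`, then the Davis complex thickens to a contractible
`(2 d + 1)`-manifold on which `W` acts properly, and the groups `K` are fundamental groups of aspherical
`(2 d + 1)`-manifolds. (If `dim X ≤ d` this is a statement about the top degree.)

The starting result `AllCovers` gives, for every flag homology sphere, the EXISTENCE of an iterated edge subdivision
with this property. Here the barycentric subdivision itself is shown to have it. Method: the vertices of the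
barycentric subdivision which belong to the edges of `X` are joined to exactly two vertices of `X`, and to everything
else to which these two are joined; so they are middle points in the sense of `Pool.Agent.N504.RS.Mid`, and so are the
barycentres of the cells of codimension one. The other ranks are properly coloured by their number, which is at most
`⌊n / 2⌋ + 1` for `n ≤ 6`; and `Pool.Agent.N496.CV.main` (helper496 and coworkers) applies.
-/

set_option autoImplicit false

namespace Pool.Agent.Results.MP_4f4d9f_gt.BarycentricCovers

open Pool.Agent.W907.SG Pool.Agent.W907.SM Pool.Agent.W461.SGN Pool.Agent.N496.CV Pool.Agent.R782.Bal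
open Pool.Agent.Helper10K1.BC

/-- `cmp r` is the comparability graph of the relation `r` (its flag complex is the order complex, the barycentric
subdivision), `W G` the right-angled Coxeter group of the graph `G`, `th G` the homomorphism from `W G` to the vector
space over the field with two elements with the basis `V`, which sends every generator to its basis vector.

(0) The kernel `Γ` of `th (cmp r)` has finite index and is torsion free.
(1) Let `r` be a Gorenstein* poset graded by `n` ranks. For every subgroup `K` of `Γ`, of finite or infinite index, the
`L²`-Betti number `b_k(K)` vanishes for all `k > n / 2` with `k ≥ n - 2`; for `n ≤ 6` this means for all `k > n / 2`.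
(2) Let `r` be the inclusion relation of the cells of a regular cell complex (`Cells`) which is embedded in the sphere
of dimension `2 d`, `d ≥ 1` (`Emb`), all cells of dimension at most `d + 1`; or all cells of dimension at most `d + 2`
and every cell of dimension `d + 1` contained in exactly two others (`Closed`). Then `b_k(K) = 0` for all `k > d` and
every subgroup `K` of `Γ`. -/
theorem result :
    (∀ (V : Type) [Fintype V] (r : V → V → Prop), (th (cmp r)).ker.FiniteIndex ∧
      ∀ g ∈ (th (cmp r)).ker, ∀ j : ℕ, 0 < j → g ^ j = 1 → g = 1) ∧
    (∀ (n : ℕ) (V : Type) [Fintype V] [LinearOrder V] (r : V → V → Prop) (rk : V → Fin n), GorStar n r rk →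
      ∀ K : Subgroup (W (cmp r)), K ≤ (th (cmp r)).ker → ∀ k : ℕ, n < 2 * k → n ≤ 6 ∨ n ≤ k + 2 → HasL2Betti K k 0) ∧
    ∀ (d : ℕ) (V : Type) [Fintype V] [LinearOrder V] (r : V → V → Prop) (dim : V → ℕ), 1 ≤ d → Cells r dim →
      Emb d (cmp r) → ((∀ v, dim v ≤ d + 1) ∨ Closed r dim (d + 1)) →
      ∀ K : Subgroup (W (cmp r)), K ≤ (th (cmp r)).ker → ∀ k : ℕ, d < k → HasL2Betti K k 0 := by
  refine ⟨fun V _ r => ⟨inferInstance, fun g hg j hj hgj => Pool.Agent.N496.CV.tf' V (cmp r) g hg j hj hgj⟩,
    fun n V _ _ r rk hG K hK k hk hk2 => gor_all hG K hK k hk (by omega),
    fun d V _ _ r dim hd hC hE h K hK k hk => cells_all hd hC h hE.obs K hK k hk⟩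

end Pool.Agent.Results.MP_4f4d9f_gt.BarycentricCovers
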