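import Pool.Agent.Helper10K1.CO.CellBetti
import Pool.Agent.Helper10K1.CO.Crit2
import Pool.Agent.Helper10K1.CO.Van2

/-!
# The conjecture of Davis and Okun in codimension one, for all aspherical manifolds and all their covers

Let `N` be an aspherical manifold of dimension `n ≥ 2`, without boundary, **compact or not**, of finite or infinite
type, with a locally finite cell structure in which every `(n-1)`-cell is a face of exactly two `n`-cells (for example a
smooth or a triangulated manifold). Let `X` be its universal cover and `L` its fundamental group. Let `K` be a subgroup
of `L`, finitely generated or not, such that the cover `M = X / K` is not compact. If `N` is not compact, `K = L` is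
allowed, that is `M = N`. The conjecture of Davis and Okun predicts `b_k(M) = b_k(K) = 0` for all `k > n / 2`. We prove
`b_k(M) = 0` for all `k ≥ n - 1`, in each of the following cases.

(a) `b_1(L) = 0` and `L` is not amenable. (If `L` is amenable then so is `K`, and `b_k(K) = 0` for all `k ≥ 1` by a
    classical theorem of Cheeger and Gromov.)
(b) `L` has a subgroup `B` with nonamenable centralizer, and `L` is generated from `B` through infinite intersections:
    the only subgroup `M` of `L` which contains `B`, and all the elements `g` of `L` for which `M ∩ g M g⁻¹` is infinite,
    is `M = L`. For example: `B` is an infinite normal subgroup of `L`; or `L` has generators `z_1, z_2, …` (finitely or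
    infinitely many) of infinite order, such that each `z_{i+1}` commutes with one of `z_1, …, z_i`, and the
    centralizer of `z_1` is not amenable (for example a right-angled Artin group of a connected graph, some vertex of
    which is adjacent to two vertices which are not adjacent). No `L²`-Betti number enters the assumption.

For `n = 3` and `n = 4` the degrees `k ≥ n - 1` are all the degrees `k > n / 2`: so in dimension four the conjecture of
Davis and Okun holds for every noncompact aspherical manifold `N` with `b_1(N) = 0`, and for **all** the covers of such
a manifold (the covers have in general nonzero `b_1`, and infinitely generated homology).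

The proof. The homology of `M` with coefficients in the von Neumann algebra `N(K)` is computed by chains on `X` which
are equivariant and finite modulo `K`. A cycle `F` in degree `n - 1` is a `1`-cocycle on the dual graph of the cell
structure. The traces of its values, summed along paths, give a `1`-cocycle of `L` with values in `ℓ²(L)`, because `F`
is a cycle on all of `X`, on which `L` acts. This cocycle of `L` is a coboundary, and this gives a primitive `s` of the
trace of `F` which is square-integrable on the orbits of `K`. The primitive of `F` at an `n`-cell `σ` is, up to a constant,
the function `h ↦ s(h σ)` on `K`, and it is locally constant outside finitely many orbits of `K`. The level sets of `s`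
have finite boundary; since `X` has one end (`n ≥ 2`) they are finite, and there are only finitely many functions
`h ↦ s(h σ)` up to translation by `K`. So `s` has finite support modulo `K`, and `F` is the boundary of an `n`-chain
which is finite modulo `K`. In the case (a) we show, for an arbitrary nonamenable group `L`, that `b_1(L) = 0` (in the
sense of Lueck's dimension of `Tor_1(N(L), ℤ)`) implies that `H¹(L; ℓ²(L))` is zero, with no finiteness assumption.
-/

set_option autoImplicit false

open scoped ENNReal

namespace Pool.Agent.Results.MP_4f4d9f_gt.CodimensionOneManifolds

open Pool.Agent.N496.CV Pool.Agent.Helper10K1.CO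

/-- The group `G` is amenable: there is a finitely additive probability measure on the family of all subsets of `G`
which is invariant under left translations. -/
def Amenable (G : Type) [Group G] : Prop :=
  ∃ m : Set G → ℝ, (∀ A, 0 ≤ m A) ∧ m Set.univ = 1 ∧
    (∀ A B, Disjoint A B → m (A ∪ B) = m A + m B) ∧ ∀ (g : G) (A : Set G), m ((fun x => g * x) '' A) = m A

/-- Let `X` be a contractible manifold of dimension `n = m + 2 ≥ 2` with a locally finite cell structure, on which the
group `L` acts freely and cellularly (`CellManifold L m`); nothing is assumed about `X / L`. Let `K` be a subgroup of `L`
such that `X / K` is not compact, that is, has infinitely many `n`-cells. Assume that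

* `b_1(L) = 0` and `L` is not amenable, or
* `L` has a subgroup `B` with nonamenable centralizer, such that `M = L` is the only subgroup of `L` which contains `B`
  and all `g ∈ L` for which `M ∩ g M g⁻¹` is infinite.

Then the `L²`-Betti numbers `b_k(X / K) = b_k(K)` (Lueck's dimension of `Tor_k^{ℤ[K]}(N(K), ℤ)`, `HasL2Betti`) vanish for
all `k ≥ n - 1 = m + 1`. -/
theorem result (m : ℕ) (L : Type) [Group L] (X : CellManifold L m) (K : Subgroup L)
    (hK : ∀ T : Finset (X.cell (m + 2)), ∃ σ, ∀ h : K, ∀ x ∈ T, σ ≠ (h : L) • x)
    (h : (HasL2Betti L 1 0 ∧ ¬ Amenable L) ∨
      ∃ B : Subgroup L, ¬ Amenable (Subgroup.centralizer (B : Set L)) ∧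
        ∀ M : Subgroup L, B ≤ M → (∀ g : L, {x : L | x ∈ M ∧ g⁻¹ * x * g ∈ M}.Infinite → g ∈ M) → M = ⊤)
    (k : ℕ) (hk : m + 1 ≤ k) : HasL2Betti K k 0 := by
  have hL : VanH1 L := by
    rcases h with ⟨hb, hna⟩ | ⟨B, hA, hB⟩
    · exact van_of_betti hb (gap_of_not_amenable hna)
    · exact van_of_wq B hB hA
  refine betti_cell X K hL ?_ k hk
  rintro ⟨T, hT⟩
  obtain ⟨σ, hσ⟩ := hK T
  obtain ⟨κ, x, hx, e⟩ := hT σ (Set.mem_univ σ)
  exact hσ κ x hx e

end Pool.Agent.Results.MP_4f4d9f_gt.CodimensionOneManifolds
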