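import Pool.Agent.Helper10K1.CO.Thm
import Pool.Agent.Helper10K1.CO.Crit
import Pool.Agent.Helper10K1.CO.Uniq

/-!
# The conjecture of Davis and Okun in codimension one, for noncompact covers of closed aspherical manifolds

Let `Γ` be a Poincaré duality group of dimension `n ≥ 2` (of type FL), for example the fundamental group of a closed
aspherical `n`-manifold `N`, with universal cover `X`; orientable or not. Let `K` be a subgroup of infinite index of
`Γ`, finitely generated or not: the noncompact manifold `M = X / K` is aspherical, and every noncompact cover of `N` is
of this form. The conjecture of Davis and Okun predicts `b_k(M) = b_k(K) = 0` for all `k > n / 2`. We prove `b_k(K) = 0`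
for all `k ≥ n - 1`, `k ≥ 1`, in each of the following cases:

(a) `Γ` is not amenable and its first `L²`-Betti number `b_1(Γ)` is zero; `K` is arbitrary;
(b) `K` is contained in a subgroup `L` of `Γ` with `H¹(L; ℓ²(L)) = 0`; nothing is assumed about `Γ`. A special case is
    `L = K`. (For a finitely generated infinite group `L` the condition means that `L` is not amenable and `b_1(L) = 0`.)
(c) `K` is contained in a subgroup `L` of `Γ` which has a subgroup `B` such that `B ∩ g B g⁻¹` is infinite for all
    `g ∈ L` (for example an infinite normal subgroup), and the centralizer of `B` in `L` is not amenable. For example: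
    `Γ` is any nonamenable group which is a direct product of two infinite groups or has an infinite centre, and `K` is
    arbitrary. In this case nothing is assumed about `L²`-Betti numbers.

For `n = 3` and `n = 4` the degrees `k ≥ n - 1` are all the degrees `k > n / 2`. So in dimension four the conjecture of
Davis and Okun holds for **all** the noncompact covers of every closed aspherical manifold `N` which satisfies
`b_1(N) = 0` and whose fundamental group is not amenable; for a closed aspherical 4-manifold `b_1(N) = 0` is
equivalent to the conjecture of Singer, so the conjecture of Singer for `N` implies the conjecture of Davis and Okun for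
all the covers of `N`. (If `Γ` is amenable then so is `K`, and the statement is a classical theorem of Cheeger and
Gromov.) The groups `K` have in general a nonzero first `L²`-Betti number, and need not be of type FP.

The theorem of Okun and Schreve (Singer's conjecture in all dimensions `≤ n` implies the conjecture of Davis and Okun for
compact aspherical manifolds with boundary) does not apply to `M`, which need not be the interior of a compact
manifold, and assumes the conjecture for other manifolds.

The proof. By duality a class in `H_{n-1}(K; N(K))` is given by a `K`-equivariant `1`-cocycle `F` on `X` with values in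
the group von Neumann algebra `N(K)`, with compact support modulo `K`; it has to be shown that it has a primitive with
compact support modulo `K`. The trace of `F` is a square-integrable cocycle `ξ` on `X`. In the cases (a), (b) the
vanishing of the unreduced first `ℓ²`-cohomology gives a primitive `s` of `ξ` which is square-integrable on the orbits
of `L`. In terms of `s` the primitive of `F` at the vertex `g` is, up to a constant, the function `h ↦ s(h g)` on `K`,
which is locally constant in `g` outside finitely many cosets `K g`. The level sets of `s` have finite boundary in `Γ`;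
since `Γ` has one end (`H¹(Γ; ℤ[Γ]) = 0`) they are finite, and there are only finitely many functions `h ↦ s(h g)` up to
translation by `K`. So `s` has finite support modulo `K`. In the case (c) the vanishing of `H¹(L; ℓ²(L))` is proved with
the Laplace operator of a finite subset of the centralizer, which is invertible.
-/

set_option autoImplicit false

open scoped ENNReal

namespace Pool.Agent.Results.MP_4f4d9f_gt.CodimensionOneVanishing

open Pool.Agent.N496.CV

/-- The group `G` is amenable: there is a finitely additive probability measure on the family of all subsets of `G`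
which is invariant under left translations. -/
def Amenable (G : Type) [Group G] : Prop :=
  ∃ m : Set G → ℝ, (∀ A, 0 ≤ m A) ∧ m Set.univ = 1 ∧
    (∀ A B, Disjoint A B → m (A ∪ B) = m A + m B) ∧ ∀ (g : G) (A : Set G), m ((fun x => g * x) '' A) = m A

/-- The first cohomology `H¹(L; ℓ²(L))` of `L` with coefficients in the left regular representation is zero: every map
`c : L → ℓ²(L)` with `c (g h) = c g + g c h` is of the form `g ↦ g f - f`, `f ∈ ℓ²(L)`; here `g f` is the translated
function, `(g f)(x) = f (g⁻¹ x)`. -/
def FirstCohomologyZero (L : Type) [Group L] : Prop :=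
  ∀ c : L → L → ℂ, (∀ g, Summable fun x => ‖c g x‖ ^ 2) → (∀ g h x, c (g * h) x = c g x + c h (g⁻¹ * x)) →
    ∃ f : L → ℂ, (Summable fun x => ‖f x‖ ^ 2) ∧ ∀ g x, c g x = f (g⁻¹ * x) - f x

theorem van_of {L : Type} [Group L] (h : FirstCohomologyZero L) : Pool.Agent.Helper10K1.CO.VanH1 L := by
  intro c hc
  obtain ⟨f, hf, hcf⟩ := h (fun g x => c g x) (fun g => Pool.Agent.Helper10K1.CO.nsq_sum (c g)) (fun g h x => by
    have h1 := congrArg (fun ζ : Pool.Agent.Helper655.VN.EllTwo L => ζ x) (hc g h)
    exact h1)
  refine ⟨⟨f, memℓp_gen (by simpa using hf)⟩, fun g => ?_⟩
  ext x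
  exact hcf g x

/-- Let `Γ` be a Poincaré duality group of dimension `n ≥ 2` (`PD Γ n`: a finite free resolution of `ℤ` whose dual is a
resolution of `ℤ` too, up to the orientation character), let `K ≤ L` be subgroups of `Γ`, and let `K` have infinite
index in `Γ`. Assume that

* `L = Γ`, `b_1(Γ) = 0` and `Γ` is not amenable, or
* `H¹(L; ℓ²(L)) = 0`, or
* `L` has a subgroup `B` such that `B ∩ g B g⁻¹` is infinite for all `g ∈ L` and the centralizer of `B` in `L` is not
  amenable.

Then the `L²`-Betti numbers `b_k(K)` (Lueck's dimension of `Tor_k^{ℤ[K]}(N(K), ℤ)`, `HasL2Betti`) vanish for all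
`k ≥ n - 1`. -/
theorem result (n : ℕ) (hn : 2 ≤ n) (Γ : Type) [Group Γ] (P : PD Γ n) (K L : Subgroup Γ) (hKL : K ≤ L)
    (hK : K.index = 0)
    (h : (L = ⊤ ∧ HasL2Betti Γ 1 0 ∧ ¬ Amenable Γ) ∨ FirstCohomologyZero L ∨
      ∃ B : Subgroup L, (∀ g : L, {x : L | x ∈ B ∧ g⁻¹ * x * g ∈ B}.Infinite) ∧
        ¬ Amenable (Subgroup.centralizer (B : Set L)))
    (k : ℕ) (hk : n ≤ k + 1) : HasL2Betti K k 0 := by
  obtain ⟨m, rfl⟩ : ∃ m, k = m + 1 := ⟨k - 1, by omega⟩
  have key : VN831.l2Betti K (m + 1) = 0 := by
    rcases h with ⟨-, hb, hna⟩ | h | ⟨B, hB, hA⟩
    · exact Pool.Agent.Helper10K1.CO.codim_one P (Pool.Agent.Helper10K1.CO.zero_of_has P.D 0 hb) hna hK m (by omega)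
    · exact Pool.Agent.Helper10K1.CO.codim_one_L P L hKL (van_of h) hK m (by omega)
    · exact Pool.Agent.Helper10K1.CO.codim_one_L P L hKL
        (Pool.Agent.Helper10K1.CO.van_of_centralizer B hB hA) hK m (by omega)
  rw [← key]
  exact hasL2Betti K (m + 1)

end Pool.Agent.Results.MP_4f4d9f_gt.CodimensionOneVanishing
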