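import Pool.Agent.Helper10K1.BC.Cols

/-!
# The conjecture of Davis and Okun for all the covers: coloured complexes in spheres

Let `X` be a finite simplicial complex which is embedded in the sphere of dimension `2 d`, and colour its vertices by
finitely many colours, with some monochromatic simplices. Let `cs X col` be the graph of the subdivision of `X` in
which only the monochromatic simplices are (barycentrically) subdivided; if the missing faces of `X` have at most two
colours (for example if `X` is a flag complex) this is a flag complex homeomorphic to `X`. The cost of a colour `c` is a
number `w c ≥ 1` such that the simplices with all vertices of colour `c` have at most `w c + 1` vertices. We assume that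
the sum of the costs is at most `d + 1`. Examples:

* `d + 1` colours without monochromatic triangles; the monochromatic edges are subdivided by their middle points. For
  instance: every flag triangulation of the sphere of dimension `2 d` or `2 d - 1` whose graph has chromatic number at
  most `2 d + 2` (put the `2 d + 2` colours together in pairs). Every barycentric subdivision of a triangulation of
  these spheres is of this kind, being `(2 d + 1)`-colourable: so subdividing in the barycentric subdivision of an
  arbitrary triangulation once the edges between the barycentres of the simplices of the dimensions `2 i`, `2 i + 1`
  one always gets such a complex;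
* one colour, if `dim X ≤ d + 1`.

We show for every subgroup `K`, of finite or infinite index, finitely generated or not, of the kernel `Γ` of
`W → (ℤ/2)^m`, where `W` is the right-angled Coxeter group of `cs X col`, that `b_k(K) = 0` for all `k > d`. The group
`Γ` is torsion free of finite index in `W`. If `X` is a triangulated sphere of dimension `n - 1`, `n = 2 d` or
`n = 2 d + 1`, whose subdivision is combinatorial, then the groups `K` are the fundamental groups of all the covers of a
closed aspherical `n`-manifold; if `X` is piecewise linearly embedded in the sphere of dimension `2 d` they are
fundamental groups of aspherical `(2 d + 1)`-manifolds, the covers of a compact one with boundary.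

The starting result `ColouredClosure` treats subgroups of finite index only, and `AllCovers` gives the existence of an
unspecified iterated edge subdivision of a flag homology sphere with this property for all subgroups.
-/

set_option autoImplicit false

namespace Pool.Agent.Results.MP_4f4d9f_gt.ColouredCovers

open Pool.Agent.W907.SG Pool.Agent.W461.SGN Pool.Agent.N496.CV Pool.Agent.R782.Bal Pool.Agent.Helper10K1.BC

/-- Let `X` be a finite simplicial complex embedded in the sphere of dimension `2 d` (`EmbX`), `col` a colouring of its
vertices whose colours have costs with sum at most `d + 1` (`Cost`). Then the kernel `Γ` of the homomorphism
`th (cs X col)` from the right-angled Coxeter group `W (cs X col)` to the vector space over the field with two elements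
with the basis `MF X col` (the monochromatic simplices) is torsion free of finite index, and for every subgroup `K` of
`Γ` all `L²`-Betti numbers of `K` in the degrees `k > d` are zero. -/
theorem result : ∀ (d N k : ℕ) (X : Finset (Finset (Fin N))) (col : Fin N → Fin k),
    (∀ σ ∈ X, ∀ τ : Finset (Fin N), τ ⊆ σ → τ ∈ X) → Cost d X col → EmbX d X col →
    (th (cs X col)).ker.FiniteIndex ∧ (∀ g ∈ (th (cs X col)).ker, ∀ j : ℕ, 0 < j → g ^ j = 1 → g = 1) ∧
    ∀ [Fintype (MF X col)] [LinearOrder (MF X col)] (K : Subgroup (W (cs X col))), K ≤ (th (cs X col)).ker →
      ∀ i : ℕ, d < i → HasL2Betti K i 0 := by
  intro d N k X col hX hc hE
  refine ⟨inferInstance, fun g hg j hj hgj => Pool.Agent.N496.CV.tf' (MF X col) (cs X col) g hg j hj hgj, ?_⟩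
  intro _ _ K hK i hi
  exact cols_all hX hc hE K hK i hi

end Pool.Agent.Results.MP_4f4d9f_gt.ColouredCovers
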